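import Pool.Agent.TH901.H2A.Stm

/-!
# Commuting pairs in rank three
-/

set_option autoImplicit false

namespace Pool.Agent.TH55.H2A

open Pool.Agent.Helper741 Pool.Agent.TH901.H2A

section field

variable {k : Type*} [Field k]

theorem cayley {A : Matrix (Fin 2) (Fin 2) k} {t : k} (htr : A.trace = t) (hdet : A.det = 1) :
    A * A = t • A - 1 := by
  rw [Matrix.trace_fin_two] at htr
  rw [Matrix.det_fin_two] at hdet
  ext i j
  fin_cases i <;> fin_cases j <;>
    simp [Matrix.mul_apply, Fin.sum_univ_two]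
  · linear_combination A 0 0 * (htr) - hdet
  · linear_combination A 0 1 * htr
  · linear_combination A 1 0 * htr
  · linear_combination A 1 1 * htr - hdet

/-- powers of a matrix of determinant one -/
theorem pow_one_of {A : Matrix (Fin 2) (Fin 2) k} {ζ : k} {n : ℕ} (h0 : ζ ≠ 0) (hζ : ζ ^ n = 1)
    (hne : ζ ≠ ζ⁻¹) (htr : A.trace = ζ + ζ⁻¹) (hdet : A.det = 1) : A ^ n = 1 := by
  have hA := cayley htr hdet
  have hz : ζ * ζ⁻¹ = 1 := mul_inv_cancel₀ h0
  have key : ∀ m : ℕ, (ζ - ζ⁻¹) • A ^ (m + 1) =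
      (ζ ^ (m + 1) - ζ⁻¹ ^ (m + 1)) • A - (ζ ^ m - ζ⁻¹ ^ m) • (1 : Matrix (Fin 2) (Fin 2) k) := by
    intro m
    induction m with
    | zero => simp
    | succ m ih =>
      rw [pow_succ, ← smul_mul_assoc, ih, sub_mul, smul_mul_assoc, smul_mul_assoc, one_mul, hA,
        smul_sub, smul_smul]
      have e : (ζ ^ (m + 1) - ζ⁻¹ ^ (m + 1)) * (ζ + ζ⁻¹) - (ζ ^ m - ζ⁻¹ ^ m) =
          ζ ^ (m + 1 + 1) - ζ⁻¹ ^ (m + 1 + 1) := by
        linear_combination (ζ ^ m - ζ⁻¹ ^ m) * hz
      rw [← e]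
      module
  cases n with
  | zero => simp
  | succ m =>
    have h1 := key m
    have e1 : ζ⁻¹ ^ (m + 1) = 1 := by rw [inv_pow, hζ, inv_one]
    have e2 : ζ ^ m = ζ⁻¹ := by
      rw [pow_succ] at hζ
      exact eq_inv_of_mul_eq_one_left hζ
    have e3 : ζ⁻¹ ^ m = ζ := by rw [inv_pow, e2, inv_inv]
    rw [hζ, e1, e2, e3, sub_self, zero_smul, zero_sub, ← neg_smul, neg_sub] at h1
    exact smul_right_injective _ (sub_ne_zero.2 hne) h1

/-- unipotent matrices -/
def Um (t : k) : Matrix (Fin 2) (Fin 2) k := !![1, t; 0, 1]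

/-- lower unipotent matrices -/
def Lm (y : k) : Matrix (Fin 2) (Fin 2) k := !![1, 0; y, 1]

theorem Um_mul (s t : k) : Um s * Um t = Um (s + t) := by
  simp [Um, add_comm]

theorem Lm_mul (s t : k) : Lm s * Lm t = Lm (s + t) := by
  simp [Lm]

theorem Um_zero : Um (0 : k) = 1 := by
  ext i j; fin_cases i <;> fin_cases j <;> simp [Um]

theorem Lm_zero : Lm (0 : k) = 1 := by
  ext i j; fin_cases i <;> fin_cases j <;> simp [Lm]

theorem tr_UL [CharP k 2] (t y : k) : (Um t * Lm y).trace = t * y ∧ (Um t * Lm y).det = 1 ∧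
    (Lm y * Um t).trace = t * y ∧ (Lm y * Um t).det = 1 := by
  have h2 : (2 : k) = 0 := CharTwo.two_eq_zero
  refine ⟨?_, ?_, ?_, ?_⟩
  · simp only [Um, Lm, Matrix.mul_fin_two, Matrix.trace_fin_two_of]
    linear_combination h2
  · simp only [Um, Lm, Matrix.mul_fin_two, Matrix.det_fin_two_of]
    ring
  · simp only [Um, Lm, Matrix.mul_fin_two, Matrix.trace_fin_two_of]
    linear_combination h2
  · simp only [Um, Lm, Matrix.mul_fin_two, Matrix.det_fin_two_of]
    ring

end field

section cox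

variable {B : Type} [Fintype B] [DecidableEq B] {M : CoxeterMatrix B} {W : Type} [Group W]
  (cs : CoxeterSystem M W)

omit [Fintype B] in
theorem not_conj {t j : B} (hev : ∀ i, i ≠ t → Even (M t i)) (hj : j ≠ t) (x : W) :
    x * cs.simple t * x⁻¹ ≠ cs.simple j := by
  set f : B → ℤˣ := fun i => if i = t then -1 else 1 with hf
  have hl : M.IsLiftable f := by
    intro i i'
    by_cases h1 : i = t
    · by_cases h2 : i' = t
      · rw [h1, h2, M.diagonal]; simp [hf]
      · simp only [hf, if_pos h1, if_neg h2, mul_one]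
        rw [h1, (hev i' h2).neg_one_pow]
    · by_cases h2 : i' = t
      · simp only [hf, if_neg h1, if_pos h2, one_mul]
        rw [h2, M.symmetric, (hev i h1).neg_one_pow]
      · simp only [hf, if_neg h1, if_neg h2, one_mul, one_pow]
  intro h
  have h1 := congrArg (cs.lift ⟨f, hl⟩) h
  rw [map_mul, map_mul, CoxeterSystem.lift_apply_simple, CoxeterSystem.lift_apply_simple,
    mul_right_comm, ← map_mul, mul_inv_cancel, map_one, one_mul] at h1
  simp only [hf, if_true, if_neg hj] at h1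
  exact absurd h1 (by decide)

theorem m_two {i j : B} (hij : i ≠ j)
    (hc : cs.simple i * cs.simple j = cs.simple j * cs.simple i) : M i j = 2 := by
  by_contra h
  have h1 : M i j ≠ 1 := M.off_diagonal i j hij
  have h2 := isReduced_aw cs hij (k := 3) (by omega)
  unfold CoxeterSystem.IsReduced at h2
  have h3 : cs.wordProd (aw i j 3) = cs.simple j := by
    simp only [aw, CoxeterSystem.wordProd_cons, CoxeterSystem.wordProd_nil, mul_one]
    rw [← mul_assoc, hc, mul_assoc, cs.simple_mul_simple_self, mul_one]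
  rw [h3, CoxeterSystem.length_simple] at h2
  simp at h2

omit [Fintype B] [DecidableEq B] in
theorem central {t : B} (hc : ∀ i, cs.simple t * cs.simple i = cs.simple i * cs.simple t) (x : W) :
    x * cs.simple t * x⁻¹ = cs.simple t := by
  have key : ∀ x : W, cs.simple t * x = x * cs.simple t := by
    intro x
    apply cs.simple_induction (p := fun x => cs.simple t * x = x * cs.simple t) x
    · exact hc
    · simp
    · intro w w' h1 h2
      rw [← mul_assoc, h1, mul_assoc, h2, mul_assoc]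
  rw [← key x, mul_assoc, mul_inv_cancel, mul_one]

omit [Fintype B] [DecidableEq B] in
theorem comm_of_two {i j : B} (h : M i j = 2) :
    cs.simple i * cs.simple j = cs.simple j * cs.simple i := by
  have h1 := cs.simple_mul_simple_pow i j
  rw [h, pow_two] at h1
  have h2 : cs.simple i * cs.simple j = (cs.simple i * cs.simple j)⁻¹ := eq_inv_of_mul_eq_one_left h1
  rw [mul_inv_rev, cs.inv_simple, cs.inv_simple] at h2
  exact h2

theorem neZero_of_odd {p : ℕ} (hp : Odd p) : NeZero ((p : ℕ) : ZMod 2) := by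
  constructor
  intro h
  rw [ZMod.natCast_eq_zero_iff] at h
  rcases hp with ⟨m, hm⟩
  omega

/-- roots of unity in characteristic two -/
theorem exists_roots {p q : ℕ} (hp : Odd p) (hp5 : 5 ≤ p) (hq : Odd q) (hq3 : 3 ≤ q) :
    ∃ ζ η : AlgebraicClosure (ZMod 2), ζ ≠ 0 ∧ ζ ^ p = 1 ∧ ζ ≠ ζ⁻¹ ∧ η ≠ 0 ∧ η ^ q = 1 ∧
      η ≠ η⁻¹ ∧ ζ + ζ⁻¹ ≠ η + η⁻¹ := by
  have i1 := neZero_of_odd hp
  have i2 := neZero_of_odd hq
  obtain ⟨z, hz⟩ := HasEnoughRootsOfUnity.exists_primitiveRoot (AlgebraicClosure (ZMod 2)) p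
  obtain ⟨η, hη⟩ := HasEnoughRootsOfUnity.exists_primitiveRoot (AlgebraicClosure (ZMod 2)) q
  have hz0 : z ≠ 0 := hz.ne_zero (by omega)
  have hη0 : η ≠ 0 := hη.ne_zero (by omega)
  have hinv : ∀ (u : AlgebraicClosure (ZMod 2)), u ≠ 0 → u = u⁻¹ → u ^ 2 = 1 := by
    intro u hu h
    rw [pow_two]
    nth_rewrite 2 [h]
    exact mul_inv_cancel₀ hu
  have hη1 : η ≠ η⁻¹ := by
    intro h
    have h1 := (hη.pow_eq_one_iff_dvd 2).1 (hinv η hη0 h)
    have := Nat.le_of_dvd (by norm_num) h1
    omega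
  have hz1 : z ≠ z⁻¹ := by
    intro h
    have h1 := (hz.pow_eq_one_iff_dvd 2).1 (hinv z hz0 h)
    have := Nat.le_of_dvd (by norm_num) h1
    omega
  have hz2 : z ^ 2 ≠ (z ^ 2)⁻¹ := by
    intro h
    have h0 := hinv _ (pow_ne_zero 2 hz0) h
    rw [← pow_mul] at h0
    have h1 := (hz.pow_eq_one_iff_dvd _).1 h0
    have := Nat.le_of_dvd (by norm_num) h1
    omega
  have hz3 : z + z⁻¹ ≠ z ^ 2 + (z ^ 2)⁻¹ := by
    intro h
    have h1 : (z - 1) * (z ^ 3 - 1) = 0 := by
      have h2 : z ^ 2 * (z + z⁻¹) = z ^ 2 * (z ^ 2 + (z ^ 2)⁻¹) := by rw [h]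
      have e1 : z ^ 2 * (z + z⁻¹) = z ^ 3 + z := by field_simp
      have e2 : z ^ 2 * (z ^ 2 + (z ^ 2)⁻¹) = z ^ 4 + 1 := by field_simp
      rw [e1, e2] at h2
      linear_combination -h2
    rcases mul_eq_zero.1 h1 with h3 | h3
    · have h4 : z ^ 1 = 1 := by rw [pow_one]; exact sub_eq_zero.1 h3
      have h5 := (hz.pow_eq_one_iff_dvd _).1 h4
      have := Nat.le_of_dvd (by norm_num) h5
      omega
    · have h5 := (hz.pow_eq_one_iff_dvd _).1 (sub_eq_zero.1 h3)
      have := Nat.le_of_dvd (by norm_num) h5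
      omega
  by_cases h : z + z⁻¹ = η + η⁻¹
  · refine ⟨z ^ 2, η, pow_ne_zero 2 hz0, ?_, hz2, hη0, hη.pow_eq_one, hη1, ?_⟩
    · rw [← pow_mul, mul_comm, pow_mul, hz.pow_eq_one, one_pow]
    · rw [← h]
      exact fun h' => hz3 h'.symm
  · exact ⟨z, η, hz0, hz.pow_eq_one, hz1, hη0, hη.pow_eq_one, hη1, h⟩

omit [Fintype B] in
theorem swap_false {a b c : B} {x : W} (hall : ∀ t, t = a ∨ t = b ∨ t = c) (hac : a ≠ c)
    (hbc : b ≠ c) (hab : M a b = 2) (h1 : x * cs.simple a * x⁻¹ = cs.simple b)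
    (h2 : x * cs.simple b * x⁻¹ = cs.simple a) (hp : Odd (M a c)) (hp5 : 5 ≤ M a c)
    (hq : Odd (M b c)) (hq3 : 3 ≤ M b c) : False := by
  have hne : a ≠ b := by
    intro h
    rw [h, M.diagonal] at hab
    omega
  obtain ⟨ζ, η, hζ0, hζ, hζ1, hη0, hη, hη1, hne'⟩ := exists_roots hp hp5 hq hq3
  have h20 : (2 : AlgebraicClosure (ZMod 2)) = 0 := CharTwo.two_eq_zero
  set y := ζ + ζ⁻¹ with hy
  have hy0 : y ≠ 0 := by
    intro h
    apply hζ1
    linear_combination h - ζ⁻¹ * h20
  set d := (η + η⁻¹) / y with hd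
  have hdy : d * y = η + η⁻¹ := div_mul_cancel₀ _ hy0
  set f : B → Matrix (Fin 2) (Fin 2) (AlgebraicClosure (ZMod 2)) := fun t =>
    if t = a then Um 1 else if t = b then Um d else Lm y with hf
  have fa : f a = Um 1 := by simp [hf]
  have fb : f b = Um d := by simp [hf, hne.symm]
  have fc : f c = Lm y := by simp [hf, hac.symm, hbc.symm]
  have hUU : ∀ s t : AlgebraicClosure (ZMod 2), (Um s * Um t) ^ 2 = 1 := by
    intro s t
    rw [pow_two, Um_mul, Um_mul, CharTwo.add_self_eq_zero, Um_zero]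
  have hU1 : ∀ s : AlgebraicClosure (ZMod 2), (Um s * Um s) ^ 1 = 1 := by
    intro s
    rw [pow_one, Um_mul, CharTwo.add_self_eq_zero, Um_zero]
  have hL1 : ∀ s : AlgebraicClosure (ZMod 2), (Lm s * Lm s) ^ 1 = 1 := by
    intro s
    rw [pow_one, Lm_mul, CharTwo.add_self_eq_zero, Lm_zero]
  have ta := tr_UL (1 : AlgebraicClosure (ZMod 2)) y
  have tb := tr_UL d y
  rw [one_mul] at ta
  rw [hdy] at tb
  have hl : M.IsLiftable f := by
    intro i j
    rcases hall i with hi | hi | hi <;> rcases hall j with hj | hj | hj <;> rw [hi, hj]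
    · rw [M.diagonal, fa]; exact hU1 _
    · rw [fa, fb, hab]; exact hUU _ _
    · rw [fa, fc]; exact pow_one_of hζ0 hζ hζ1 ta.1 ta.2.1
    · rw [fa, fb, M.symmetric, hab]; exact hUU _ _
    · rw [M.diagonal, fb]; exact hU1 _
    · rw [fb, fc]; exact pow_one_of hη0 hη hη1 tb.1 tb.2.1
    · rw [fa, fc, M.symmetric]; exact pow_one_of hζ0 hζ hζ1 ta.2.2.1 ta.2.2.2
    · rw [fb, fc, M.symmetric]; exact pow_one_of hη0 hη hη1 tb.2.2.1 tb.2.2.2
    · rw [M.diagonal, fc]; exact hL1 _
  set φ := cs.lift ⟨f, hl⟩ with hφ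
  have e1 : φ x * Um 1 = Um d * φ x := by
    rw [← fa, ← fb, ← cs.lift_apply_simple hl a, ← cs.lift_apply_simple hl b, ← map_mul,
      ← map_mul, ← h1]
    congr 1
    group
  have e2 : φ x * Um d = Um 1 * φ x := by
    rw [← fa, ← fb, ← cs.lift_apply_simple hl a, ← cs.lift_apply_simple hl b, ← map_mul,
      ← map_mul, ← h2]
    congr 1
    group
  have e3 : φ x * φ x⁻¹ = 1 := by rw [← map_mul, mul_inv_cancel, map_one]
  set X := φ x with hX
  set X' := φ x⁻¹ with hX'
  have q1 := congrFun (congrFun e1 1) 1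
  have q2 := congrFun (congrFun e1 0) 1
  have q3 := congrFun (congrFun e2 0) 1
  have q4 := congrFun (congrFun e3 1) 1
  simp only [Um, Matrix.mul_apply, Fin.sum_univ_two, Matrix.of_apply, Matrix.cons_val', Matrix.cons_val_zero,
    Matrix.cons_val_one, Matrix.one_apply_eq, Matrix.cons_val_fin_one] at q1 q2 q3 q4
  have r1 : X 1 0 = 0 := by linear_combination q1
  rw [r1, zero_mul, zero_add] at q4
  have r2 : X 1 1 ≠ 0 := by
    intro h
    rw [h, zero_mul] at q4
    exact zero_ne_one q4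
  have r3 : X 0 0 = d * X 1 1 := by linear_combination q2
  have r4 : d * X 0 0 = X 1 1 := by linear_combination q3
  have r5 : (d - 1) * (d - 1) * X 1 1 = 0 := by
    rw [r3] at r4
    linear_combination r4 + (1 - d) * X 1 1 * h20
  have r6 : d = 1 := by
    rcases mul_eq_zero.1 r5 with h | h
    · exact sub_eq_zero.1 (mul_self_eq_zero.1 h)
    · exact absurd h r2
  apply hne'
  rw [← hdy, r6, one_mul]

end cox

theorem r3_of : Pool.Agent.TH901.H2A.S_r3 := by
  intro B _ _ M W _ cs a b c a' b' x hall hac hbc hab ha hb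
  have hne : a ≠ b := by
    intro h
    rw [h, M.diagonal] at hab
    omega
  have hcomm : cs.simple a' * cs.simple b' = cs.simple b' * cs.simple a' := by
    rw [← ha, ← hb]
    have h := comm_of_two cs hab
    calc x * cs.simple a * x⁻¹ * (x * cs.simple b * x⁻¹) = x * (cs.simple a * cs.simple b) * x⁻¹ := by
          group
      _ = x * (cs.simple b * cs.simple a) * x⁻¹ := by rw [h]
      _ = x * cs.simple b * x⁻¹ * (x * cs.simple a * x⁻¹) := by group
  have hne' : a' ≠ b' := by
    intro h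
    rw [h, ← hb] at ha
    apply hne
    apply simple_injective cs
    exact mul_left_cancel (mul_right_cancel ha)
  have hba : M b a = 2 := by rw [M.symmetric]; exact hab
  -- parity
  have hoddac : ∀ j, j ≠ a → x * cs.simple a * x⁻¹ = cs.simple j → Odd (M a c) := by
    intro j hj hx
    by_contra ho
    rw [Nat.not_odd_iff_even] at ho
    refine not_conj cs (t := a) (j := j) ?_ hj x hx
    intro i hi
    rcases hall i with h | h | h
    · exact absurd h hi
    · rw [h, hab]; exact even_two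
    · rw [h]; exact ho
  have hoddbc : ∀ j, j ≠ b → x * cs.simple b * x⁻¹ = cs.simple j → Odd (M b c) := by
    intro j hj hx
    by_contra ho
    rw [Nat.not_odd_iff_even] at ho
    refine not_conj cs (t := b) (j := j) ?_ hj x hx
    intro i hi
    rcases hall i with h | h | h
    · rw [h, hba]; exact even_two
    · exact absurd h hi
    · rw [h]; exact ho
  rcases hall a' with h | h | h <;> rcases hall b' with h' | h' | h' <;>
    rw [h] at ha hcomm hne' ⊢ <;> rw [h'] at hb hcomm hne' ⊢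
  · exact absurd rfl hne'
  · exact Relation.EqvGen.refl _
  · exact Relation.EqvGen.rel _ _ (Mv.right hab (m_two cs hac hcomm) (hoddbc c hbc.symm hb))
  · -- `(b, a)`
    have hp := hoddac b hne.symm ha
    have hq := hoddbc a hne hb
    have hp1 : M a c ≠ 1 := M.off_diagonal a c hac
    have hq1 : M b c ≠ 1 := M.off_diagonal b c hbc
    obtain ⟨u, hu⟩ := hp
    obtain ⟨v, hv⟩ := hq
    by_cases hp5 : 5 ≤ M a c
    · exact (swap_false cs hall hac hbc hab ha hb ⟨u, hu⟩ hp5 ⟨v, hv⟩ (by omega)).elim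
    · by_cases hq5 : 5 ≤ M b c
      · have hall' : ∀ t, t = b ∨ t = a ∨ t = c := by
          intro t
          rcases hall t with h | h | h
          · exact Or.inr (Or.inl h)
          · exact Or.inl h
          · exact Or.inr (Or.inr h)
        exact (swap_false cs hall' hbc hac hba hb ha ⟨v, hv⟩ hq5 ⟨u, hu⟩ (by omega)).elim
      · have h3 : M a c = 3 := by omega
        have h4 : M c b = 3 := by rw [M.symmetric]; omega
        exact Relation.EqvGen.rel _ _ (Mv.swap hab h3 h4)
  · exact absurd rfl hne'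
  · -- `(b, c)`
    exfalso
    have h2 := m_two cs hbc hcomm
    have hcen := central cs (t := b) (by
      intro i
      rcases hall i with h | h | h
      · rw [h]; exact comm_of_two cs hba
      · rw [h]
      · rw [h]; exact comm_of_two cs h2) x
    rw [hb] at hcen
    exact hbc (simple_injective cs hcen.symm)
  · -- `(c, a)`
    exfalso
    have h2 := m_two cs hac hcomm.symm
    have hcen := central cs (t := a) (by
      intro i
      rcases hall i with h | h | h
      · rw [h]
      · rw [h]; exact comm_of_two cs hab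
      · rw [h]; exact comm_of_two cs h2) x
    rw [ha] at hcen
    exact hac (simple_injective cs hcen.symm)
  · -- `(c, b)`
    exact Relation.EqvGen.rel _ _ (Mv.left hab (m_two cs hbc.symm hcomm) (hoddac c hac.symm ha))
  · exact absurd rfl hne'

end Pool.Agent.TH55.H2A
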